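import Pool.Agent.R341.SG.Stm

/-!
SG-MULT: local lower bound for the trinomial distribution (helper466).
-/

namespace Pool.Agent.R466.SG

open Finset Pool.Agent.R341.SG

/-- `m! ≤ e √m (m/e)^m` for `m ≥ 1` -/
theorem fact_le {m : ℕ} (hm : 1 ≤ m) :
    (m.factorial : ℝ) ≤ Real.exp 1 * Real.sqrt m * ((m : ℝ) / Real.exp 1) ^ m := by
  obtain ⟨k, rfl⟩ : ∃ k, m = k + 1 := ⟨m - 1, by omega⟩
  have h := Stirling.stirlingSeq'_antitone (Nat.zero_le k)
  simp only [Function.comp, Nat.succ_eq_add_one, zero_add] at h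
  rw [Stirling.stirlingSeq_one, Stirling.stirlingSeq] at h
  have hp : (0:ℝ) < √(2 * ((k + 1 : ℕ) : ℝ)) * (((k + 1 : ℕ) : ℝ) / Real.exp 1) ^ (k + 1) := by
    positivity
  rw [div_le_iff₀ hp] at h
  refine h.trans (le_of_eq ?_)
  rw [Real.sqrt_mul (by norm_num)]
  have h2 : √(2:ℝ) ≠ 0 := by positivity
  field_simp

/-- `√n (n/e)^n ≤ n!` -/
theorem le_fact (n : ℕ) : Real.sqrt n * ((n : ℝ) / Real.exp 1) ^ n ≤ (n.factorial : ℝ) := by
  refine le_trans ?_ (Stirling.le_factorial_stirling n)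
  apply mul_le_mul_of_nonneg_right _ (by positivity)
  apply Real.sqrt_le_sqrt
  have hpi : (1:ℝ) ≤ 2 * Real.pi := by linarith [Real.pi_gt_three]
  have hn : (0:ℝ) ≤ n := Nat.cast_nonneg n
  nlinarith

theorem fac_bound {m : ℕ} {x q : ℝ} (hx : 0 < x) (hq : 0 < q) (hm : 0 < m) :
    Real.exp (-((m : ℝ) * ((m : ℝ) / (x * q) - 1))) * (m / x) ^ m ≤ q ^ m := by
  have hm' : (0:ℝ) < m := by exact_mod_cast hm
  have h1 : (m : ℝ) / (x * q) ≤ Real.exp ((m : ℝ) / (x * q) - 1) := by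
    have := Real.add_one_le_exp ((m : ℝ) / (x * q) - 1)
    linarith
  have h2 : ((m : ℝ) / (x * q)) ^ m ≤ Real.exp ((m : ℝ) * ((m : ℝ) / (x * q) - 1)) := by
    calc ((m : ℝ) / (x * q)) ^ m ≤ (Real.exp ((m : ℝ) / (x * q) - 1)) ^ m :=
          pow_le_pow_left₀ (by positivity) h1 m
      _ = Real.exp ((m : ℝ) * ((m : ℝ) / (x * q) - 1)) := by rw [← Real.exp_nat_mul]
  have h3 : ((m:ℝ) / x) ^ m = ((m : ℝ) / (x * q)) ^ m * q ^ m := by
    rw [← mul_pow]
    congr 1
    field_simp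
  rw [h3, Real.exp_neg, ← mul_assoc]
  have hE := Real.exp_pos ((m : ℝ) * ((m : ℝ) / (x * q) - 1))
  have h4 : (Real.exp ((m : ℝ) * ((m : ℝ) / (x * q) - 1)))⁻¹ * ((m : ℝ) / (x * q)) ^ m ≤ 1 := by
    rw [inv_mul_le_iff₀ hE, mul_one]
    exact h2
  calc _ ≤ 1 * q ^ m := mul_le_mul_of_nonneg_right h4 (by positivity)
    _ = q ^ m := one_mul _

theorem core {n s l d : ℕ} {q0 q1 q2 K : ℝ} (hq0 : 0 < q0) (hq1 : 0 < q1) (hq2 : 0 < q2)
    (hsum : q0 + q1 + q2 = 1) (hn : 0 < n) (hs : 0 < s) (hl : 0 < l) (hd : 0 < d)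
    (hsld : s + l + d = n) (h0 : |(s : ℝ) - q0 * n| ≤ K * Real.sqrt n)
    (h1 : |(l : ℝ) - q1 * n| ≤ K * Real.sqrt n) :
    Real.exp (-3) * Real.exp (-(K ^ 2 / q0 + K ^ 2 / q1 + 4 * K ^ 2 / q2)) / n ≤
      (n.factorial : ℝ) / (s.factorial * l.factorial * d.factorial) * (q0 ^ s * q1 ^ l * q2 ^ d) := by
  have hn' : (0:ℝ) < n := by exact_mod_cast hn
  have hs' : (0:ℝ) < s := by exact_mod_cast hs
  have hl' : (0:ℝ) < l := by exact_mod_cast hl
  have hd' : (0:ℝ) < d := by exact_mod_cast hd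
  have hsl : (s : ℝ) + l + d = n := by exact_mod_cast hsld
  have e1 := fac_bound hn' hq0 hs
  have e2 := fac_bound hn' hq1 hl
  have e3 := fac_bound hn' hq2 hd
  -- the exponent
  have hex : (s : ℝ) * (s / (n * q0) - 1) + l * (l / (n * q1) - 1) + d * (d / (n * q2) - 1) ≤
      K ^ 2 / q0 + K ^ 2 / q1 + 4 * K ^ 2 / q2 := by
    have id0 : ∀ (m q : ℝ), 0 < q → m * (m / (n * q) - 1) = (m - q * n) + (m - q * n) ^ 2 / (n * q) := by
      intro m q hq
      field_simp
      ring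
    rw [id0 s q0 hq0, id0 l q1 hq1, id0 d q2 hq2]
    have hz : ((s:ℝ) - q0 * n) + (l - q1 * n) + (d - q2 * n) = 0 := by
      have : q2 = 1 - q0 - q1 := by linarith
      rw [this, ← hsl]; ring
    have sq0 : ((s:ℝ) - q0 * n) ^ 2 ≤ K ^ 2 * n := by
      have := pow_le_pow_left₀ (abs_nonneg _) h0 2
      rw [sq_abs, mul_pow, Real.sq_sqrt hn'.le] at this
      exact this
    have sq1 : ((l:ℝ) - q1 * n) ^ 2 ≤ K ^ 2 * n := by
      have := pow_le_pow_left₀ (abs_nonneg _) h1 2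
      rw [sq_abs, mul_pow, Real.sq_sqrt hn'.le] at this
      exact this
    have sq2 : ((d:ℝ) - q2 * n) ^ 2 ≤ 4 * K ^ 2 * n := by
      have hd2 : (d:ℝ) - q2 * n = -(((s:ℝ) - q0 * n) + (l - q1 * n)) := by linarith
      rw [hd2]
      nlinarith [sq_nonneg (((s:ℝ) - q0 * n) - (l - q1 * n))]
    have b0 : ((s:ℝ) - q0 * n) ^ 2 / (n * q0) ≤ K ^ 2 / q0 := by
      rw [div_le_div_iff₀ (by positivity) hq0]
      nlinarith
    have b1 : ((l:ℝ) - q1 * n) ^ 2 / (n * q1) ≤ K ^ 2 / q1 := by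
      rw [div_le_div_iff₀ (by positivity) hq1]
      nlinarith
    have b2 : ((d:ℝ) - q2 * n) ^ 2 / (n * q2) ≤ 4 * K ^ 2 / q2 := by
      rw [div_le_div_iff₀ (by positivity) hq2]
      nlinarith
    linarith
  have hE : Real.exp (-(K ^ 2 / q0 + K ^ 2 / q1 + 4 * K ^ 2 / q2)) ≤
      Real.exp (-((s : ℝ) * (s / (n * q0) - 1))) * Real.exp (-((l : ℝ) * (l / (n * q1) - 1))) *
        Real.exp (-((d : ℝ) * (d / (n * q2) - 1))) := by
    rw [← Real.exp_add, ← Real.exp_add]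
    apply Real.exp_le_exp.2
    linarith
  -- Stirling
  have F := le_fact n
  have Fs := fact_le (m := s) hs
  have Fl := fact_le (m := l) hl
  have Fd := fact_le (m := d) hd
  have hsqs : Real.sqrt s ≤ Real.sqrt n := Real.sqrt_le_sqrt (by linarith)
  have hsql : Real.sqrt l ≤ Real.sqrt n := Real.sqrt_le_sqrt (by linarith)
  have hsqd : Real.sqrt d ≤ Real.sqrt n := Real.sqrt_le_sqrt (by linarith)
  have hsn : 0 < Real.sqrt n := Real.sqrt_pos.2 hn'
  have hfs : (0:ℝ) < s.factorial := by exact_mod_cast s.factorial_pos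
  have hfl : (0:ℝ) < l.factorial := by exact_mod_cast l.factorial_pos
  have hfd : (0:ℝ) < d.factorial := by exact_mod_cast d.factorial_pos
  have he : 0 < Real.exp 1 := Real.exp_pos 1
  have D : (s.factorial : ℝ) * l.factorial * d.factorial ≤
      (Real.exp 1 ^ 3 * Real.sqrt n ^ 3) *
        (((s : ℝ) / Real.exp 1) ^ s * ((l : ℝ) / Real.exp 1) ^ l * ((d : ℝ) / Real.exp 1) ^ d) := by
    have Fs' : (s.factorial : ℝ) ≤ Real.exp 1 * Real.sqrt n * ((s : ℝ) / Real.exp 1) ^ s :=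
      Fs.trans (by gcongr)
    have Fl' : (l.factorial : ℝ) ≤ Real.exp 1 * Real.sqrt n * ((l : ℝ) / Real.exp 1) ^ l :=
      Fl.trans (by gcongr)
    have Fd' : (d.factorial : ℝ) ≤ Real.exp 1 * Real.sqrt n * ((d : ℝ) / Real.exp 1) ^ d :=
      Fd.trans (by gcongr)
    calc (s.factorial : ℝ) * l.factorial * d.factorial ≤
        (Real.exp 1 * Real.sqrt n * ((s : ℝ) / Real.exp 1) ^ s) *
        (Real.exp 1 * Real.sqrt n * ((l : ℝ) / Real.exp 1) ^ l) *
        (Real.exp 1 * Real.sqrt n * ((d : ℝ) / Real.exp 1) ^ d) := by gcongr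
      _ = _ := by ring
  -- split (n/e)^n
  have hsplit : ((n : ℝ) / Real.exp 1) ^ n =
      ((n : ℝ) / Real.exp 1) ^ s * ((n : ℝ) / Real.exp 1) ^ l * ((n : ℝ) / Real.exp 1) ^ d := by
    rw [← pow_add, ← pow_add, hsld]
  have ratio : ∀ m : ℕ, ((m : ℝ) / Real.exp 1) ^ m = ((m:ℝ) / n) ^ m * ((n : ℝ) / Real.exp 1) ^ m := by
    intro m
    rw [← mul_pow]
    congr 1
    field_simp
  -- lower bound for the quotient
  have Q : Real.sqrt n * ((n : ℝ) / Real.exp 1) ^ n /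
      ((Real.exp 1 ^ 3 * Real.sqrt n ^ 3) *
        (((s : ℝ) / Real.exp 1) ^ s * ((l : ℝ) / Real.exp 1) ^ l * ((d : ℝ) / Real.exp 1) ^ d)) ≤
      (n.factorial : ℝ) / (s.factorial * l.factorial * d.factorial) := by
    apply div_le_div₀ (by positivity) F (by positivity) D
  have Qe : Real.sqrt n * ((n : ℝ) / Real.exp 1) ^ n /
      ((Real.exp 1 ^ 3 * Real.sqrt n ^ 3) *
        (((s : ℝ) / Real.exp 1) ^ s * ((l : ℝ) / Real.exp 1) ^ l * ((d : ℝ) / Real.exp 1) ^ d)) =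
      Real.exp (-3) / n * (1 / (((s:ℝ) / n) ^ s * ((l:ℝ) / n) ^ l * ((d:ℝ) / n) ^ d)) := by
    rw [hsplit, ratio s, ratio l, ratio d]
    have hs3 : Real.sqrt n ^ 3 = Real.sqrt n * n := by
      have : Real.sqrt n ^ 3 = Real.sqrt n * (Real.sqrt n ^ 2) := by ring
      rw [this, Real.sq_sqrt hn'.le]
    have he3 : Real.exp (-3) = 1 / Real.exp 1 ^ 3 := by
      rw [← Real.exp_nat_mul, Real.exp_neg]
      norm_num
    rw [hs3, he3]
    have p1 : ((n : ℝ) / Real.exp 1) ^ s ≠ 0 := by positivity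
    have p2 : ((n : ℝ) / Real.exp 1) ^ l ≠ 0 := by positivity
    have p3 : ((n : ℝ) / Real.exp 1) ^ d ≠ 0 := by positivity
    have p4 : ((s:ℝ) / n) ^ s ≠ 0 := by positivity
    have p5 : ((l:ℝ) / n) ^ l ≠ 0 := by positivity
    have p6 : ((d:ℝ) / n) ^ d ≠ 0 := by positivity
    generalize ((n : ℝ) / Real.exp 1) ^ s = a1 at *
    generalize ((n : ℝ) / Real.exp 1) ^ l = a2 at *
    generalize ((n : ℝ) / Real.exp 1) ^ d = a3 at *
    generalize ((s:ℝ) / n) ^ s = a4 at *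
    generalize ((l:ℝ) / n) ^ l = a5 at *
    generalize ((d:ℝ) / n) ^ d = a6 at *
    field_simp
  rw [Qe] at Q
  have P1 : 0 < ((s:ℝ) / n) ^ s * ((l:ℝ) / n) ^ l * ((d:ℝ) / n) ^ d := by positivity
  have prod : (Real.exp (-((s : ℝ) * (s / (n * q0) - 1))) *
      Real.exp (-((l : ℝ) * (l / (n * q1) - 1))) * Real.exp (-((d : ℝ) * (d / (n * q2) - 1)))) *
      (((s:ℝ) / n) ^ s * ((l:ℝ) / n) ^ l * ((d:ℝ) / n) ^ d) ≤ q0 ^ s * q1 ^ l * q2 ^ d := by
    calc _ = (Real.exp (-((s : ℝ) * (s / (n * q0) - 1))) * ((s:ℝ) / n) ^ s) *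
          (Real.exp (-((l : ℝ) * (l / (n * q1) - 1))) * ((l:ℝ) / n) ^ l) *
          (Real.exp (-((d : ℝ) * (d / (n * q2) - 1))) * ((d:ℝ) / n) ^ d) := by ring
      _ ≤ q0 ^ s * q1 ^ l * q2 ^ d := by
        apply mul_le_mul (mul_le_mul e1 e2 (by positivity) (by positivity)) e3 (by positivity)
          (by positivity)
  have prod2 : Real.exp (-(K ^ 2 / q0 + K ^ 2 / q1 + 4 * K ^ 2 / q2)) *
      (((s:ℝ) / n) ^ s * ((l:ℝ) / n) ^ l * ((d:ℝ) / n) ^ d) ≤ q0 ^ s * q1 ^ l * q2 ^ d :=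
    (mul_le_mul_of_nonneg_right hE P1.le).trans prod
  calc Real.exp (-3) * Real.exp (-(K ^ 2 / q0 + K ^ 2 / q1 + 4 * K ^ 2 / q2)) / n
      = (Real.exp (-3) / n * (1 / (((s:ℝ) / n) ^ s * ((l:ℝ) / n) ^ l * ((d:ℝ) / n) ^ d))) *
        (Real.exp (-(K ^ 2 / q0 + K ^ 2 / q1 + 4 * K ^ 2 / q2)) *
        (((s:ℝ) / n) ^ s * ((l:ℝ) / n) ^ l * ((d:ℝ) / n) ^ d)) := by
        generalize ((s:ℝ) / n) ^ s * ((l:ℝ) / n) ^ l * ((d:ℝ) / n) ^ d = X at *
        field_simp
    _ ≤ _ := mul_le_mul Q prod2 (by positivity) (by positivity)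

theorem q0_pos : 0 < q 0 := by unfold q; simp [Real.exp_pos]

theorem exp_neg_one_bounds : 1 / 3 < Real.exp (-1) ∧ Real.exp (-1) < 1 / 2 := by
  have h1 := Real.exp_one_gt_d9
  have h2 := Real.exp_one_lt_d9
  rw [Real.exp_neg]
  constructor
  · rw [one_div, inv_lt_inv₀ (by norm_num) (Real.exp_pos 1)]
    linarith
  · rw [one_div, inv_lt_inv₀ (Real.exp_pos 1) (by norm_num)]
    linarith

theorem q_pos (i : Fin 3) : 0 < q i := by
  have h := exp_neg_one_bounds
  unfold q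
  fin_cases i <;> simp <;> linarith [h.1, h.2, Real.exp_pos (-1)]

theorem q_sum : q 0 + q 1 + q 2 = 1 := by
  unfold q
  simp
  ring

theorem wb_eq {n : ℕ} (b : Fin n → Fin 3) :
    wb b = q 0 ^ (St b 0).card * q 1 ^ (St b 1).card * q 2 ^ (St b 2).card := by
  unfold wb
  rw [← Finset.prod_fiberwise' (univ : Finset (Fin n)) b q, Fin.prod_univ_three]
  simp [St, Finset.prod_const]

theorem card_sum {n : ℕ} (b : Fin n → Fin 3) :
    (St b 0).card + (St b 1).card + (St b 2).card = n := by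
  have h := Finset.card_eq_sum_card_fiberwise (f := b) (s := (univ : Finset (Fin n)))
    (t := (univ : Finset (Fin 3))) (fun _ _ => Finset.mem_coe.2 (mem_univ _))
  rw [Fin.sum_univ_three] at h
  simp only [card_univ, Fintype.card_fin] at h
  unfold St
  exact h.symm

theorem count {n s l d : ℕ} (h : s + l + d = n) :
    n.choose s * (n - s).choose l ≤
      (univ.filter (fun b : Fin n → Fin 3 => (St b 0).card = s ∧ (St b 1).card = l)).card := by
  classical
  let S : Finset (Σ _ : Finset (Fin n), Finset (Fin n)) :=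
    (powersetCard s (univ : Finset (Fin n))).sigma (fun A => powersetCard l (univ \ A))
  have hS : S.card = n.choose s * (n - s).choose l := by
    rw [Finset.card_sigma]
    have : ∀ A ∈ powersetCard s (univ : Finset (Fin n)),
        (powersetCard l (univ \ A)).card = (n - s).choose l := by
      intro A hA
      rw [mem_powersetCard] at hA
      rw [card_powersetCard, card_sdiff_of_subset (subset_univ _), hA.2, card_univ,
        Fintype.card_fin]
    rw [Finset.sum_congr rfl this, Finset.sum_const, card_powersetCard, card_univ,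
      Fintype.card_fin, smul_eq_mul]
  rw [← hS]
  let F : (Σ _ : Finset (Fin n), Finset (Fin n)) → (Fin n → Fin 3) := fun p x =>
    if x ∈ p.1 then 0 else if x ∈ p.2 then 1 else 2
  have key : ∀ p ∈ S, St (F p) 0 = p.1 ∧ St (F p) 1 = p.2 := by
    intro p hp
    rw [Finset.mem_sigma, mem_powersetCard, mem_powersetCard] at hp
    have hdis : ∀ x ∈ p.2, x ∉ p.1 := by
      intro x hx
      have := hp.2.1 hx
      rw [mem_sdiff] at this
      exact this.2
    constructor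
    · ext x
      simp only [St, mem_filter, mem_univ, true_and, F]
      by_cases h1 : x ∈ p.1
      · simp [h1]
      · by_cases h2 : x ∈ p.2
        · simp [h1, h2]
        · simp [h1, h2]
    · ext x
      simp only [St, mem_filter, mem_univ, true_and, F]
      by_cases h1 : x ∈ p.1
      · simp only [h1, if_true]
        constructor
        · intro h; exact absurd h (by decide)
        · intro h; exact absurd h1 (hdis x h)
      · by_cases h2 : x ∈ p.2
        · simp [h1, h2]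
        · simp [h1, h2]
  apply Finset.card_le_card_of_injOn F
  · intro p hp
    have hp' := Finset.mem_coe.1 hp
    obtain ⟨k1, k2⟩ := key p hp'
    rw [Finset.mem_sigma, mem_powersetCard, mem_powersetCard] at hp'
    simp only [coe_filter, mem_univ, true_and, Set.mem_setOf_eq]
    rw [k1, k2]
    exact ⟨hp'.1.2, hp'.2.2⟩
  · intro p hp p' hp' heq
    obtain ⟨k1, k2⟩ := key p (Finset.mem_coe.1 hp)
    obtain ⟨k1', k2'⟩ := key p' (Finset.mem_coe.1 hp')
    have a1 : p.1 = p'.1 := by rw [← k1, ← k1', heq]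
    have a2 : p.2 = p'.2 := by rw [← k2, ← k2', heq]
    exact Sigma.ext a1 (heq_of_eq a2)

theorem smult : SMULT := by
  intro K hK
  refine ⟨Real.exp (-3) * Real.exp (-(K ^ 2 / q 0 + K ^ 2 / q 1 + 4 * K ^ 2 / q 2)),
    by positivity, ⌈(4 * K / q 2 + 4 * K / q 0 + 4 * K / q 1 + 1) ^ 2⌉₊ + 1, ?_⟩
  intro n hn s l h0 h1
  have q0p := q_pos 0
  have q1p := q_pos 1
  have q2p := q_pos 2
  have hn1 : 0 < n := by omega
  have hn' : (0:ℝ) < n := by exact_mod_cast hn1
  have hsn : 0 < Real.sqrt n := Real.sqrt_pos.2 hn'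
  have hroot : 4 * K / q 2 + 4 * K / q 0 + 4 * K / q 1 + 1 ≤ Real.sqrt n := by
    apply Real.le_sqrt_of_sq_le
    have a1 : (4 * K / q 2 + 4 * K / q 0 + 4 * K / q 1 + 1) ^ 2 ≤
        (⌈(4 * K / q 2 + 4 * K / q 0 + 4 * K / q 1 + 1) ^ 2⌉₊ : ℝ) := Nat.le_ceil _
    have a2 : ((⌈(4 * K / q 2 + 4 * K / q 0 + 4 * K / q 1 + 1) ^ 2⌉₊ + 1 : ℕ) : ℝ) ≤ n := by
      exact_mod_cast hn
    push_cast at a2
    linarith
  have sm : ∀ i : Fin 3, 0 < 4 * K / q i := fun i => div_pos (by linarith) (q_pos i)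
  have bd : ∀ i : Fin 3, 4 * K / q i ≤ Real.sqrt n → 4 * (K * Real.sqrt n) ≤ q i * n := by
    intro i hi
    rw [div_le_iff₀ (q_pos i)] at hi
    have hnn : (n:ℝ) = Real.sqrt n * Real.sqrt n := (Real.mul_self_sqrt hn'.le).symm
    calc 4 * (K * Real.sqrt n) = (4 * K) * Real.sqrt n := by ring
      _ ≤ (Real.sqrt n * q i) * Real.sqrt n := mul_le_mul_of_nonneg_right hi hsn.le
      _ = q i * (Real.sqrt n * Real.sqrt n) := by ring
      _ = q i * n := by rw [← hnn]
  have b0 := bd 0 (by linarith [sm 0, sm 1, sm 2])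
  have b1 := bd 1 (by linarith [sm 0, sm 1, sm 2])
  have b2 := bd 2 (by linarith [sm 0, sm 1, sm 2])
  have h0' := abs_le.1 h0
  have h1' := abs_le.1 h1
  have hKn : 0 < K * Real.sqrt n := mul_pos hK hsn
  have hqs := q_sum
  have hs : 0 < s := by
    have : (0:ℝ) < s := by linarith [h0'.1]
    exact_mod_cast this
  have hl : 0 < l := by
    have : (0:ℝ) < l := by linarith [h1'.1]
    exact_mod_cast this
  have hsl : s + l < n := by
    have : (s:ℝ) + l < n := by
      have : (n:ℝ) = q 0 * n + q 1 * n + q 2 * n := by rw [← add_mul, ← add_mul, hqs, one_mul]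
      linarith [h0'.2, h1'.2]
    exact_mod_cast this
  obtain ⟨d, hd⟩ : ∃ d, s + l + d = n := ⟨n - (s + l), by omega⟩
  have hd0 : 0 < d := by omega
  have C := core q0p q1p q2p hqs hn1 hs hl hd0 hd h0 h1
  refine C.trans ?_
  have hsumeq : ∑ b ∈ univ.filter (fun b : Fin n → Fin 3 => (St b 0).card = s ∧ (St b 1).card = l),
      wb b = ((univ.filter
        (fun b : Fin n → Fin 3 => (St b 0).card = s ∧ (St b 1).card = l)).card : ℝ) *
        (q 0 ^ s * q 1 ^ l * q 2 ^ d) := by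
    rw [← nsmul_eq_mul, ← Finset.sum_const]
    refine Finset.sum_congr rfl fun b hb => ?_
    rw [mem_filter] at hb
    have hc := card_sum b
    rw [wb_eq, hb.2.1, hb.2.2]
    have : (St b 2).card = d := by rw [hb.2.1, hb.2.2] at hc; omega
    rw [this]
  rw [hsumeq]
  apply mul_le_mul_of_nonneg_right _ (by positivity)
  have cnt := count hd
  have cnt' : ((n.choose s * (n - s).choose l : ℕ) : ℝ) ≤ ((univ.filter
        (fun b : Fin n → Fin 3 => (St b 0).card = s ∧ (St b 1).card = l)).card : ℝ) := by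
    exact_mod_cast cnt
  refine le_trans (le_of_eq ?_) cnt'
  have hns : n - s = l + d := by omega
  rw [hns]
  have c1 : (n.choose s : ℝ) = n.factorial / (s.factorial * (l + d).factorial) := by
    rw [Nat.cast_choose ℝ (by omega : s ≤ n), hns]
  have c2 : ((l + d).choose l : ℝ) = (l + d).factorial / (l.factorial * d.factorial) := by
    rw [Nat.cast_choose ℝ (by omega : l ≤ l + d)]
    congr 2
    have : l + d - l = d := by omega
    rw [this]
  push_cast
  rw [c1, c2]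
  have f1 : ((l + d).factorial : ℝ) ≠ 0 := by exact_mod_cast (l + d).factorial_ne_zero
  have f2 : (s.factorial : ℝ) ≠ 0 := by exact_mod_cast s.factorial_ne_zero
  have f3 : (l.factorial : ℝ) ≠ 0 := by exact_mod_cast l.factorial_ne_zero
  have f4 : (d.factorial : ℝ) ≠ 0 := by exact_mod_cast d.factorial_ne_zero
  field_simp

end Pool.Agent.R466.SG
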